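import Mathlib
import Pool.Agent.H8.Grz
import Pool.Agent.H8.Luz

set_option autoImplicit false

namespace Pool.Agent.Results.MP_4d4d44_lc.ZFC

open Set Filter Topology Function MeasureTheory Pool.Agent.H8.Grz Pool.Agent.H8.SG
open scoped Cardinal ENNReal

/-- F_σ set -/
def Fs (F : Set (ℕ → Bool)) : Prop :=
  ∃ C : ℕ → Set (ℕ → Bool), (∀ n, IsClosed (C n)) ∧ F = ⋃ n, C n

/-- universally null -/
def UN (A : Set (ℕ → Bool)) : Prop :=
  ∀ ν : Measure (ℕ → Bool), IsFiniteMeasure ν → (∀ x, ν {x} = 0) → ν A = 0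

/-- countably perfectly null -/
def PN (A : Set (ℕ → Bool)) : Prop :=
  ∀ ν : Measure (ℕ → Bool), IsFiniteMeasure ν → (∀ x, ν {x} = 0) → ∃ F, Fs F ∧ A ⊆ F ∧ ν F = 0

theorem result : ∃ A, UN A ∧ ¬ PN A := by
  obtain ⟨_, ⟨A, hA, rfl⟩, hm⟩ := Cardinal.lt_wf.has_min {κ | ∃ A, ¬ UN A ∧ #A = κ} (by
    haveI : (𝓝[≠] (0 : ℕ → Bool)).NeBot := by
      refine ⟨fun h => not_isMeagre_of_isOpen ((isOpen_singleton_iff_punctured_nhds _).2 h)
        (singleton_nonempty _) (ct_meagre (countable_singleton _))⟩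
    exact ⟨_, univ, fun h => (isOpen_univ.measure_pos Measure.addHaar univ_nonempty).ne'
      (h _ inferInstance fun x => measure_singleton x), rfl⟩)
  have h1 : ∀ s : Set (ℕ → Bool), #s < #A → UN s := fun s hs => by_contra fun h => hm _ ⟨s, h, rfl⟩ hs
  simp only [UN, not_forall] at hA
  obtain ⟨μ, _, m1, m2⟩ := hA
  obtain ⟨M, hM, h2⟩ := univ_gd (ℕ → Bool)
  obtain ⟨X, x1, x2⟩ := main (P := ae μ) (A := A)
    (fun h => m2 (measure_eq_zero_iff_ae_notMem.2 h)) M hM fun s hs => by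
      have h3 := h1 s hs μ ‹_› m1
      choose U u1 u2 u3 using fun n : ℕ => s.exists_isOpen_lt_of_lt (μ := μ) (n : ℝ≥0∞)⁻¹
        (by simp [h3])
      obtain ⟨c, hc⟩ := h2 _ (.iInter_of_isOpen u2)
      refine ⟨c, hc ▸ subset_iInter u1, measure_eq_zero_iff_ae_notMem.1 (by_contra fun h => ?_)⟩
      obtain ⟨n, hn⟩ := ENNReal.exists_inv_nat_lt h
      exact (hn.trans_le (measure_mono (hc ▸ iInter_subset U n))).asymm (u3 n)
  let φ : (ℕ → Bool) × (ℕ → Bool) ≃ₜ (ℕ → Bool) := Homeomorph.sumArrowHomeomorphProdArrow.symm.trans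
    (Homeomorph.piCongrLeft (Y := fun _ => Bool) Equiv.natSumNatEquivNat)
  refine ⟨φ '' X, fun ν _ h3 => measure_eq_zero_iff_ae_notMem.2 (x1 _ (ae ν) φ.toMeasurableEquiv
    (fub_ae _ _) (fub_ae _ _) (fun s hs => measure_eq_zero_iff_ae_notMem.1 (h1 s hs ν ‹_› h3))
    fun w => measure_eq_zero_iff_ae_notMem.1 (h3 w)), fun H => m2 ?_⟩
  haveI := Pool.Agent.H8.Tau.fin_ctble.to_subtype
  have mj : ∀ t, Measurable fun y => φ (t, y) := fun t => by fun_prop
  let ν := Measure.sum fun t : {t : ℕ → Bool | {i | t i = true}.Finite} => μ.map fun y => φ (t, y)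
  obtain ⟨_, ⟨C, c1, rfl⟩, c2, c3⟩ := H ν.toFinite inferInstance fun x => by
    rw [toFinite_apply_eq_zero_iff, Measure.sum_apply_eq_zero]
    intro t
    rw [Measure.map_apply (mj _) (measurableSet_singleton _)]
    refine measure_mono_null (fun y hy => ?_) (m1 (φ.symm x).2)
    simp only [mem_preimage, mem_singleton_iff] at hy ⊢
    simp [← hy]
  rw [toFinite_apply_eq_zero_iff, Measure.sum_apply_eq_zero] at c3
  refine measure_mono_null (fun a ha => ?_) (measure_iUnion_null fun t => measure_mono_null le_rfl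
    ((Measure.map_apply (mj _) (.iUnion fun n => (c1 n).measurableSet)).symm.trans (c3 t)))
  obtain ⟨n, t, h3, h4⟩ := x2 a ha (fun n => φ ⁻¹' C n) (fun n => (c1 n).preimage φ.continuous)
    fun p hp => by simpa using c2 (mem_image_of_mem _ hp)
  exact mem_iUnion.2 ⟨⟨t, h3⟩, mem_iUnion.2 ⟨n, h4⟩⟩

end Pool.Agent.Results.MP_4d4d44_lc.ZFC
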